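import Pool.Agent.H28.RC.Targets1
import Pool.Agent.H16.HK.GS
import Pool.Agent.H3.HK.GA

/-!
# Hecke L-functions of ray class characters: module GS (domination)
-/

set_option autoImplicit false

namespace Pool.Agent.H12.RC

open Finset Pool.Agent.H28.RC Pool.Agent.H25.HK

theorem abs_le_exp (u : ℝ) : |u| ≤ Real.exp (Real.pi / 2 * u ^ 2) := by
  have h1 := Real.add_one_le_exp (Real.pi / 2 * u ^ 2)
  have h2 : (3 : ℝ) / 2 * u ^ 2 ≤ Real.pi / 2 * u ^ 2 := by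
    have := Real.pi_gt_three
    nlinarith [sq_nonneg u]
  have h3 : |u| ≤ 3 / 2 * u ^ 2 + 1 := by
    rw [← sq_abs u]
    nlinarith [sq_nonneg (|u| - 1 / 2), abs_nonneg u]
  linarith

theorem gj_le {ι : Type} [Fintype ι] (J : Finset ι) (u : ι → ℝ) :
    |gj J u| ≤ Real.exp (-(Real.pi / 2) * ∑ i, u i ^ 2) := by
  unfold gj
  rw [abs_mul, Real.abs_exp, abs_prod]
  have h1 : ∏ j ∈ J, |u j| ≤ ∏ i, Real.exp (Real.pi / 2 * u i ^ 2) := by
    calc ∏ j ∈ J, |u j| ≤ ∏ j ∈ J, Real.exp (Real.pi / 2 * u j ^ 2) :=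
          prod_le_prod (fun i _ => abs_nonneg _) fun i _ => abs_le_exp _
      _ ≤ ∏ i, Real.exp (Real.pi / 2 * u i ^ 2) := by
          rw [← Real.exp_sum, ← Real.exp_sum]
          exact Real.exp_le_exp.2 (sum_le_sum_of_subset_of_nonneg (subset_univ _)
            fun i _ _ => by positivity)
  calc (∏ j ∈ J, |u j|) * Real.exp (-Real.pi * ∑ i, u i ^ 2)
      ≤ (∏ i, Real.exp (Real.pi / 2 * u i ^ 2)) * Real.exp (-Real.pi * ∑ i, u i ^ 2) :=
        mul_le_mul_of_nonneg_right h1 (Real.exp_pos _).le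
    _ = _ := by
        rw [← Real.exp_sum, ← Real.exp_add, ← mul_sum]
        congr 1
        ring

theorem posdef {ι : Type} [Fintype ι] [DecidableEq ι] (A : Matrix ι ι ℝ) (hA : A.det ≠ 0) :
    (A.transpose * A).PosDef := by
  have h1 : Function.Injective A.mulVec :=
    Matrix.mulVec_injective_of_isUnit ((Matrix.isUnit_iff_isUnit_det A).2 hA.isUnit)
  have h2 := Matrix.PosDef.conjTranspose_mul_self A h1
  rwa [Matrix.conjTranspose_eq_transpose_of_trivial] at h2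

theorem pf_GS : T_GSc := by
  intro ι _ _ A J hA x₀
  obtain ⟨c, hc, hq⟩ := Pool.Agent.H16.HK.qf_lower (posdef A hA)
  obtain ⟨X, hX⟩ : ∃ X : ℝ, X = ∑ i, |x₀ i| := ⟨_, rfl⟩
  obtain ⟨d, hd⟩ : ∃ d : ℝ, d = Real.pi / 2 * c := ⟨_, rfl⟩
  have hd0 : 0 < d := by rw [hd]; positivity
  have hXi : ∀ i, |x₀ i| ≤ X := by
    intro i
    rw [hX]
    exact single_le_sum (f := fun i => |x₀ i|) (fun i _ => abs_nonneg _) (mem_univ i)
  refine ⟨fun m => ∏ i, (Real.exp (d * (1 + X) ^ 2) * Real.exp (-(d / 2) * (m i : ℝ) ^ 2)),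
    Pool.Agent.H16.HK.summable_pi
      (fun n => Real.exp (d * (1 + X) ^ 2) * Real.exp (-(d / 2) * (n : ℝ) ^ 2))
      (fun n => by positivity)
      ((Pool.Agent.H16.HK.summable_exp_sq (by positivity)).mul_left _), fun m x hx => ?_⟩
  refine (gj_le J _).trans ?_
  simp only [← Real.exp_add, ← Real.exp_sum]
  apply Real.exp_le_exp.mpr
  have h1 := hq (fun i => x i + m i + x₀ i)
  rw [Pool.Agent.H3.HK.qf_factor] at h1
  have h2 : ∑ i, ((m i : ℝ) ^ 2 / 2 - (1 + X) ^ 2) ≤ ∑ i, (x i + m i + x₀ i) ^ 2 := by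
    apply sum_le_sum
    intro i _
    obtain ⟨h3, h4⟩ := hx i
    have h5 := hXi i
    have h6 : |x i + x₀ i| ≤ 1 + X := by
      refine (abs_add_le _ _).trans (add_le_add ?_ h5)
      rw [abs_of_nonneg h3]
      exact h4
    have h7 : (x i + x₀ i) ^ 2 ≤ (1 + X) ^ 2 := by
      rw [← sq_abs]
      exact pow_le_pow_left₀ (abs_nonneg _) h6 2
    nlinarith [sq_nonneg (2 * (x i + x₀ i) + m i)]
  have h3 : ∑ i, (d * (1 + X) ^ 2 + -(d / 2) * (m i : ℝ) ^ 2) =
      -(d * ∑ i, ((m i : ℝ) ^ 2 / 2 - (1 + X) ^ 2)) := by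
    rw [mul_sum, ← sum_neg_distrib]
    exact sum_congr rfl fun i _ => by ring
  rw [h3]
  have h4 := mul_le_mul_of_nonneg_left h2 hc.le
  have h5 := mul_le_mul_of_nonneg_left (h4.trans h1) (by positivity : 0 ≤ Real.pi / 2)
  rw [hd]
  linarith

end Pool.Agent.H12.RC
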