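import Pool.Agent.H28.RC.Basic
import Pool.Agent.H25.HK.HE

/-!
# Hecke L-functions of ray class characters: module H1 (boundedness near `1`)
-/

set_option autoImplicit false

open NumberField NumberField.InfinitePlace NumberField.Units
  NumberField.Units.dirichletUnitTheorem MeasureTheory Set Filter Complex
open scoped nonZeroDivisors ENNReal

namespace Pool.Agent.H12.RC

open Pool.Agent.H28.RC Pool.Agent.H25.HK Pool.Agent.H25

section

variable {K : Type} [Field K] [NumberField K]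

lemma coe_ne {f : Ideal (𝓞 K)} (hf : f ≠ ⊥) : (f : FI K) ≠ 0 := by
  rwa [Ne, FractionalIdeal.coeIdeal_eq_zero]

lemma gS_inv_differentiable (χ : RCC K) : Differentiable ℂ fun s => (gS χ s)⁻¹ := by
  have h1 : (fun s => (gS χ s)⁻¹) = fun s => (Gammaℝ s)⁻¹ ^ (nrRealPlaces K - χ.S.card) *
      (Gammaℝ (s + 1))⁻¹ ^ χ.S.card *
      ((Gammaℝ s)⁻¹ * (Gammaℝ (s + 1))⁻¹) ^ nrComplexPlaces K := by
    funext s
    unfold gS
    rw [Gammaℂ_eq, mul_inv, mul_inv, inv_pow, inv_pow,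
      ← inv_pow (Gammaℝ s * Gammaℝ (s + 1)), mul_inv]
  rw [h1]
  have h2 : Differentiable ℂ fun s => (Gammaℝ s)⁻¹ := differentiable_Gammaℝ_inv
  have h3 : Differentiable ℂ fun s => (Gammaℝ (s + 1))⁻¹ :=
    h2.comp (differentiable_id.add_const 1)
  exact ((h2.pow _).mul (h3.pow _)).mul ((h2.mul h3).pow _)

lemma gS_ne_of_re (χ : RCC K) {s : ℂ} (hs : 0 < s.re) : gS χ s ≠ 0 := by
  unfold gS
  rw [Gammaℂ_eq]
  have h1 : Gammaℝ s ≠ 0 := Gammaℝ_ne_zero_of_re_pos hs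
  have h2 : Gammaℝ (s + 1) ≠ 0 := Gammaℝ_ne_zero_of_re_pos (by simp; linarith)
  exact mul_ne_zero (mul_ne_zero (pow_ne_zero _ h1) (pow_ne_zero _ h2))
    (pow_ne_zero _ (mul_ne_zero h1 h2))

/-- the value of the coefficient at `0` in the unramified case -/
lemma cf_zero (hCP : T_CP) (hID : T_ID) (χ : RCC K) (hS : χ.S = ∅) (hf : χ.f = ⊤) {M : FI K}
    (hM : M ≠ 0) {J : Ideal (𝓞 K)} (hJ : Pri K M J) : cf χ M 0 = χ.ψ J := by
  obtain ⟨hJ0, x, hx⟩ := hJ
  obtain ⟨-, i2, -, -, -, -, -⟩ := hID K M hM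
  have hJM : (J : FI K) * M ≤ M := by
    calc (J : FI K) * M ≤ 1 * M := by
          gcongr
          exact FractionalIdeal.coeIdeal_le_one
      _ = M := one_mul M
  have hxM : x ∈ M := by
    apply hJM
    rw [hx]
    exact FractionalIdeal.mem_spanSingleton_self _ x
  have hx0 : x ≠ 0 := by
    rintro rfl
    rw [FractionalIdeal.spanSingleton_zero] at hx
    exact mul_ne_zero (coe_ne hJ0) hM hx
  have h1 := hCP K χ M hM x hxM (-x) (by
    rw [hf]
    simp only [FractionalIdeal.coeIdeal_top, one_mul]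
    exact FractionalIdeal.mem_coe.1 (Submodule.neg_mem _ (FractionalIdeal.mem_coe.2 hxM)))
  rw [add_neg_cancel] at h1
  rw [h1]
  unfold cf
  rw [if_neg hx0, hS, sg_empty, one_mul, i2 J x hx]

/-- the sum of the values at `0` vanishes -/
lemma sum_zero (hCP : T_CP) (hID : T_ID) (χ : RCC K) (hS : χ.S = ∅) (hf : χ.f = ⊤)
    {I₀ : Ideal (𝓞 K)} (h0 : χ.ψ I₀ ≠ 0) (h1 : χ.ψ I₀ ≠ 1) {ι : Type} [Fintype ι] (M : ι → FI K)
    (hM : ∀ c, M c ≠ 0) (hu : ∀ I : Ideal (𝓞 K), I ≠ ⊥ → ∃! c, Pri K (M c) I) :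
    ∑ c, cf χ (M c) 0 = 0 := by
  have hI₀ : I₀ ≠ ⊥ := by
    rintro rfl
    exact h0 χ.map_bot
  have hJ : ∀ c, ∃ J : Ideal (𝓞 K), Pri K (M c) J := by
    intro c
    obtain ⟨i1, -, -, i4, -, ⟨x, hx0, hx⟩, -⟩ := hID K (M c) (hM c)
    exact ⟨idl K (M c) x, fun h => hx0 ((i4 x hx).1 h), x, i1 x hx⟩
  choose J hJ using hJ
  have hIJ : ∀ c, I₀ * J c ≠ ⊥ := fun c => mul_ne_zero hI₀ (hJ c).1
  choose σ hσ using fun c => (hu (I₀ * J c) (hIJ c)).exists
  have hinj : Function.Injective σ := by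
    intro c₁ c₂ h
    obtain ⟨-, x₁, hx₁⟩ := hσ c₁
    obtain ⟨-, x₂, hx₂⟩ := hσ c₂
    obtain ⟨hJ₁, y₁, hy₁⟩ := hJ c₁
    obtain ⟨hJ₂, y₂, hy₂⟩ := hJ c₂
    rw [← h] at hx₂
    rw [FractionalIdeal.coeIdeal_mul] at hx₁ hx₂
    have hxx₂ : x₂ ≠ 0 := by
      rintro rfl
      rw [FractionalIdeal.spanSingleton_zero] at hx₂
      exact mul_ne_zero (mul_ne_zero (coe_ne hI₀) (coe_ne hJ₂)) (hM _) hx₂
    have hxx₁ : x₁ ≠ 0 := by
      rintro rfl
      rw [FractionalIdeal.spanSingleton_zero] at hx₁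
      exact mul_ne_zero (mul_ne_zero (coe_ne hI₀) (coe_ne hJ₁)) (hM _) hx₁
    have hT : ((I₀ : FI K) * M (σ c₁)) ≠ 0 := mul_ne_zero (coe_ne hI₀) (hM _)
    have e1 : ((I₀ : FI K) * M (σ c₁)) * (J c₂ : FI K) =
        ((I₀ : FI K) * M (σ c₁)) *
          (FractionalIdeal.spanSingleton (𝓞 K)⁰ (x₂ / x₁) * (J c₁ : FI K)) := by
      have e2 : FractionalIdeal.spanSingleton (𝓞 K)⁰ x₂ =
          FractionalIdeal.spanSingleton (𝓞 K)⁰ (x₂ / x₁) *
            FractionalIdeal.spanSingleton (𝓞 K)⁰ x₁ := by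
        rw [FractionalIdeal.spanSingleton_mul_spanSingleton, div_mul_cancel₀ _ hxx₁]
      rw [← hx₁, ← hx₂] at e2
      calc ((I₀ : FI K) * M (σ c₁)) * (J c₂ : FI K) = (I₀ : FI K) * (J c₂ : FI K) * M (σ c₁) := by
            ring
        _ = _ := e2
        _ = _ := by ring
    have e3 := mul_left_cancel₀ hT e1
    have hP : Pri K (M c₁) (J c₂) := by
      refine ⟨hJ₂, x₂ / x₁ * y₁, ?_⟩
      rw [e3, mul_assoc, hy₁, FractionalIdeal.spanSingleton_mul_spanSingleton]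
    exact (hu (J c₂) hJ₂).unique hP (hJ c₂)
  have hbij : Function.Bijective σ := (Finite.injective_iff_bijective).1 hinj
  have hA : ∀ c, cf χ (M (σ c)) 0 = χ.ψ I₀ * cf χ (M c) 0 := by
    intro c
    rw [cf_zero hCP hID χ hS hf (hM _) (hσ c), cf_zero hCP hID χ hS hf (hM _) (hJ c), χ.map_mul]
  have h2 : ∑ c, cf χ (M c) 0 = χ.ψ I₀ * ∑ c, cf χ (M c) 0 := by
    rw [Finset.mul_sum, ← Function.Bijective.sum_comp hbij fun c => cf χ (M c) 0]
    exact Finset.sum_congr rfl fun c _ => hA c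
  have h3 : (1 - χ.ψ I₀) * ∑ c, cf χ (M c) 0 = 0 := by
    linear_combination h2
  rcases mul_eq_zero.1 h3 with h4 | h4
  · exact absurd (sub_eq_zero.1 h4).symm h1
  · exact h4

end

open scoped Classical in
theorem pf_H1 (hWP : T_WPc) (hME : T_MEc) (hCS : T_CSc) (hEP : T_EPc) (hDU : T_DU) (hCW : T_CW)
    (hCM : T_CM) (hCP : T_CP) (hID : T_ID) : T_H1 := by
  intro K _ _ χ hχ
  obtain ⟨I₀, h0, h1⟩ := hχ
  obtain ⟨W, hW⟩ := hCW K χ
  obtain ⟨ι, hι, M, hM0, hM1, hM2⟩ := hCS K χ.f χ.f_ne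
  choose P hPf hPg hPk hPε hPf0 hPg0 using fun c => hWP K χ W (M c) hW (hM0 c)
  obtain ⟨c0, hc0⟩ : ∃ c0 : ℂ, c0 = (torsionOrder K : ℂ) *
    ((2 : ℂ) ^ (nrRealPlaces K + nrComplexPlaces K))⁻¹ := ⟨_, rfl⟩
  have hc0' : c0 ≠ 0 := by
    rw [hc0]
    have h1 : (torsionOrder K : ℂ) ≠ 0 := by
      exact_mod_cast (torsionOrder_pos K).ne'
    exact mul_ne_zero h1 (inv_ne_zero (pow_ne_zero _ two_ne_zero))
  obtain ⟨N, hN⟩ : ∃ N : ι → ℝ, N = fun c => (FractionalIdeal.absNorm (M c) : ℝ) := ⟨_, rfl⟩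
  have hN0 : ∀ c, 0 < N c := fun c => by rw [hN]; exact (hDU K (M c) (hM0 c)).2.2.2.1
  have hfM : ∀ c, (χ.f : FI K) * M c ≠ 0 := fun c => mul_ne_zero (coe_ne χ.f_ne) (hM0 c)
  have hM' : ∀ c, du' χ (M c) ≠ 0 := fun c => (hDU K _ (hfM c)).1
  -- the Mellin transforms
  have hΛ : ∀ c (s : ℂ), 1 < s.re → (P c).Λ s = c0 * gS χ s * ((N c : ℝ) : ℂ) ^ (-s) *
      ∑' I : {I : Ideal (𝓞 K) // Pri K (M c) I}, χ.ψ I.1 * (Ideal.absNorm I.1 : ℂ) ^ (-s) := by
    intro c s hs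
    have h1 := ((P c).hasMellin (s := s) (by rw [hPk]; exact hs)).2
    rw [← h1]
    have h2 : (fun x => (P c).f x - (P c).f₀) = fun t => ffc χ (M c) t - k0 χ (M c) := by
      funext t
      rw [hPf, hPf0]
    rw [h2, hME K χ (M c) (hM0 c) s hs, hc0, hN]
  have hcancel : ∀ (x : ℝ) (s : ℂ), 0 < x → ((x : ℝ) : ℂ) ^ s * ((x : ℝ) : ℂ) ^ (-s) = 1 := by
    intro x s hx
    rw [← cpow_add _ _ (by exact_mod_cast hx.ne'), add_neg_cancel, cpow_zero]
  have hsum : ∀ s : ℂ, 1 < s.re → ∑ c, ((N c : ℝ) : ℂ) ^ s * (P c).Λ s =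
      c0 * gS χ s * Lc χ s := by
    intro s hs
    have h1 := (hEP K χ).1 s hs
    unfold Lc
    rw [← sum_partition (fun I : Ideal (𝓞 K) => I ≠ ⊥) (fun c I => Pri K (M c) I)
      (fun c I h => h.1) hM1 (fun I => χ.ψ I * (Ideal.absNorm I : ℂ) ^ (-s)) h1, Finset.mul_sum]
    refine Finset.sum_congr rfl fun c _ => ?_
    rw [hΛ c s hs]
    have h3 := hcancel (N c) s (hN0 c)
    calc ((N c : ℝ) : ℂ) ^ s * (c0 * gS χ s * ((N c : ℝ) : ℂ) ^ (-s) *
          ∑' I : {I : Ideal (𝓞 K) // Pri K (M c) I}, χ.ψ I.1 * (Ideal.absNorm I.1 : ℂ) ^ (-s))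
        = (((N c : ℝ) : ℂ) ^ s * ((N c : ℝ) : ℂ) ^ (-s)) * (c0 * gS χ s *
          ∑' I : {I : Ideal (𝓞 K) // Pri K (M c) I},
            χ.ψ I.1 * (Ideal.absNorm I.1 : ℂ) ^ (-s)) := by ring
      _ = _ := by rw [h3, one_mul]
  -- the singular part
  obtain ⟨F, hF⟩ : ∃ F : ℂ → ℂ, F = fun s => ∑ c, ((N c : ℝ) : ℂ) ^ s * ((P c).ε * (P c).g₀) :=
    ⟨_, rfl⟩
  have hFd : Differentiable ℂ F := by
    rw [hF]
    intro s
    refine DifferentiableAt.fun_sum fun c _ => ?_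
    have h1 : DifferentiableAt ℂ (fun s : ℂ => ((N c : ℝ) : ℂ) ^ s) s :=
      (differentiableAt_id).const_cpow (Or.inl (by exact_mod_cast (hN0 c).ne'))
    exact h1.mul_const _
  have hF1 : F 1 = 0 := by
    rw [hF]
    simp only
    by_cases hS : χ.S = ∅
    · by_cases hf : χ.f = ⊤
      · have hbS : χ.bar.S = ∅ := hS
        have hbf : χ.bar.f = ⊤ := hf
        have hz := sum_zero hCP hID χ.bar hbS hbf (I₀ := I₀)
          (by
            intro h
            exact h0 ((map_eq_zero (starRingEnd ℂ)).1 h))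
          (by
            intro h
            apply h1
            have h2 := congrArg (starRingEnd ℂ) (show (starRingEnd ℂ) (χ.ψ I₀) = 1 from h)
            rwa [Complex.conj_conj, map_one] at h2)
          (fun c => du' χ (M c)) hM' hM2
        obtain ⟨D, hD⟩ : ∃ D : ℂ, D = ((Real.sqrt |(discr K : ℝ)|)⁻¹ : ℝ) *
          ((-I) ^ χ.S.card * W) * ((volume.real (Fd K) : ℝ) : ℂ) := ⟨_, rfl⟩
        have h2 : ∀ c ∈ (Finset.univ : Finset ι), ((N c : ℝ) : ℂ) ^ (1 : ℂ) *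
            ((P c).ε * (P c).g₀) = D * cf χ.bar (du' χ (M c)) 0 := by
          intro c _
          have h3 : (P c).g₀ = cf χ.bar (du' χ (M c)) 0 * ((volume.real (Fd K) : ℝ) : ℂ) := by
            rw [hPg0]
            unfold k0
            rw [if_pos hbS]
          have h4 : (χ.f : FI K) * M c = M c := by
            rw [hf]
            simp only [FractionalIdeal.coeIdeal_top, one_mul]
          rw [h3, hPε, h4, cpow_one, hD]
          unfold cv
          have h5 : (FractionalIdeal.absNorm (M c) : ℝ) = N c := by rw [hN]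
          rw [h5]
          have h6 : ((N c : ℝ) : ℂ) ≠ 0 := by exact_mod_cast (hN0 c).ne'
          push_cast
          field_simp
        rw [Finset.sum_congr rfl h2, ← Finset.mul_sum, hz, mul_zero]
      · refine Finset.sum_eq_zero fun c _ => ?_
        have h3 : (P c).g₀ = 0 := by
          rw [hPg0]
          unfold k0
          rw [(hCM K χ.bar (du' χ (M c)) (hM' c)).2.2.2.2.2.1 hf, zero_mul, ite_self]
        rw [h3, mul_zero, mul_zero]
    · refine Finset.sum_eq_zero fun c _ => ?_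
      have h3 : (P c).g₀ = 0 := by
        rw [hPg0]
        unfold k0
        exact if_neg hS
      rw [h3, mul_zero, mul_zero]
  -- the regular function
  obtain ⟨H, hH⟩ : ∃ H : ℂ → ℂ, H = fun s => c0⁻¹ * (gS χ s)⁻¹ *
    (∑ c, ((N c : ℝ) : ℂ) ^ s * ((P c).Λ₀ s - (1 / s) • (P c).f₀) + dslope F 1 s) := ⟨_, rfl⟩
  have hHL : ∀ s : ℝ, 1 < s → Lc χ s = H s := by
    intro s hs
    have hs' : 1 < (s : ℂ).re := by simpa using hs
    have h2 := hsum s hs'
    have h3 : ∑ c, ((N c : ℝ) : ℂ) ^ (s : ℂ) * (P c).Λ s =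
        ∑ c, ((N c : ℝ) : ℂ) ^ (s : ℂ) * ((P c).Λ₀ s - (1 / (s : ℂ)) • (P c).f₀) +
          dslope F 1 s := by
      have hs1 : (s : ℂ) ≠ 1 := by
        intro h
        have : s = 1 := by exact_mod_cast h
        linarith
      have h4 : dslope F 1 s = (∑ c, ((N c : ℝ) : ℂ) ^ (s : ℂ) * ((P c).ε * (P c).g₀)) /
          ((s : ℂ) - 1) := by
        rw [dslope_of_ne _ hs1, slope_def_field, hF1, sub_zero, hF]
      rw [h4, Finset.sum_div, ← Finset.sum_add_distrib]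
      refine Finset.sum_congr rfl fun c _ => ?_
      have h6 : (P c).Λ s = (P c).Λ₀ s - (1 / (s : ℂ)) • (P c).f₀ -
          ((P c).ε / ((P c).k - s)) • (P c).g₀ := rfl
      rw [h6, hPk, smul_eq_mul, smul_eq_mul, ofReal_one]
      have h7 : (1 : ℂ) - s ≠ 0 := sub_ne_zero.2 (Ne.symm hs1)
      have h8 : (s : ℂ) - 1 ≠ 0 := sub_ne_zero.2 hs1
      have h9 : (P c).ε / (1 - (s : ℂ)) * (P c).g₀ = -((P c).ε * (P c).g₀ / ((s : ℂ) - 1)) := by
        rw [← neg_sub (s : ℂ) 1, div_neg]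
        ring
      rw [h9]
      ring
    rw [hH]
    simp only
    rw [← h3, h2]
    have h5 := gS_ne_of_re χ (s := s) (by linarith)
    field_simp
  have hHc : ContinuousOn (fun s : ℝ => H s) (Icc 1 2) := by
    have h2 : ContinuousOn H {s : ℂ | 0 < s.re} := by
      rw [hH]
      refine ContinuousOn.mul (ContinuousOn.mul continuousOn_const
        (gS_inv_differentiable χ).continuous.continuousOn) (ContinuousOn.add ?_ ?_)
      · refine continuousOn_finsetSum _ fun c _ => ?_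
        refine ContinuousOn.mul ?_ ?_
        · have h3 : Differentiable ℂ (fun s : ℂ => ((N c : ℝ) : ℂ) ^ s) := fun s =>
            (differentiableAt_id).const_cpow (Or.inl (by exact_mod_cast (hN0 c).ne'))
          exact h3.continuous.continuousOn
        · refine ContinuousOn.sub (P c).differentiable_Λ₀.continuous.continuousOn ?_
          have h6 : ContinuousOn (fun s : ℂ => 1 / s) {s : ℂ | 0 < s.re} := by
            refine ContinuousOn.div continuousOn_const continuousOn_id ?_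
            intro s hs h4
            have hs' : 0 < s.re := hs
            have h5 : s = 0 := h4
            rw [h5] at hs'
            simp at hs'
          exact h6.smul continuousOn_const
      · have h3 : ContinuousOn (dslope F 1) univ :=
          (continuousOn_dslope univ_mem).2 ⟨hFd.continuous.continuousOn, hFd 1⟩
        exact h3.mono (subset_univ _)
    refine h2.comp continuous_ofReal.continuousOn ?_
    intro s hs
    have hs1 : (1 : ℝ) ≤ s := hs.1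
    show 0 < (s : ℂ).re
    rw [ofReal_re]
    linarith
  obtain ⟨C, hC⟩ := isCompact_Icc.exists_bound_of_continuousOn hHc
  refine ⟨C, fun s hs1 hs2 => ?_⟩
  rw [hHL s hs1]
  exact hC s ⟨hs1.le, hs2⟩

end Pool.Agent.H12.RC
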